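import Mathlib
import Pool.Agent.H62.HE.Defs
import Pool.Agent.H13.HP.Defs

/-!
# Module IDL of MP_6b5a9a_nt (positive characteristic): from ideals to polynomials

Adaptation of `Pool/Agent/H14/HE/IDL.lean` with `2 ≠ 0` instead of characteristic zero.
-/

open Polynomial

namespace Pool.Agent.H19.HP.IDL

open Pool.Agent.H62.HE Pool.Agent.H13.HP QuadraticAlgebra

universe u

variable {k : Type u} [Field k]

/-- Hensel lifting of a square root modulo powers of `U`. -/
lemma lift (h20 : (2 : k) ≠ 0) {f U w : k[X]} (hU : U ∣ w ^ 2 - f) (hc : IsCoprime U w) (N : ℕ)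
    (hN : 1 ≤ N) : ∃ W : k[X], U ∣ W - w ∧ U ^ N ∣ W ^ 2 - f := by
  induction N, hN using Nat.le_induction with
  | base => exact ⟨w, by simp, by simpa using hU⟩
  | succ n hn ih =>
    obtain ⟨W, ⟨s, hs⟩, ⟨r, hr⟩⟩ := ih
    have hW : W = w + U * s := by linear_combination hs
    have hc2 : IsCoprime U (2 * W) := by
      have h1 : IsCoprime U W := by
        rw [hW]
        exact (IsCoprime.add_mul_left_right_iff).2 hc
      have h2 : IsUnit (2 : k[X]) := by
        rw [← map_ofNat (Polynomial.C : k →+* k[X]) 2]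
        exact isUnit_C.2 (isUnit_iff_ne_zero.2 h20)
      exact (isCoprime_mul_unit_left_right h2 U W).2 h1
    obtain ⟨p, q, hpq⟩ := hc2
    refine ⟨W + U ^ n * (- r * q), ?_, ?_⟩
    · have h1 : U ∣ U ^ n := dvd_pow_self U (by omega)
      have : W + U ^ n * (-r * q) - w = U * s + U ^ n * (- r * q) := by rw [hW]; ring
      rw [this]
      exact dvd_add (dvd_mul_right _ _) (h1.mul_right _)
    · obtain ⟨m, rfl⟩ : ∃ m, n = m + 1 := ⟨n - 1, by omega⟩
      refine ⟨r * p + U ^ m * (r * q) ^ 2, ?_⟩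
      have hW2 : W ^ 2 = f + U ^ (m + 1) * r := by linear_combination hr
      have e : (W + U ^ (m + 1) * (-r * q)) ^ 2 - f
          = U ^ (m + 1) * r * (1 - q * (2 * W)) + U ^ (2 * m + 2) * (r * q) ^ 2 := by
        have : (W + U ^ (m + 1) * (-r * q)) ^ 2 = W ^ 2 - 2 * W * U ^ (m + 1) * (r * q)
            + U ^ (2 * m + 2) * (r * q) ^ 2 := by ring
        rw [this, hW2]; ring
      rw [e, ← hpq]
      ring

/-- the ideal of the elements `a + b y` with `U ^ n ∣ a + b W` -/
def JJ (f U W : k[X]) (n : ℕ) (h : U ^ n ∣ W ^ 2 - f) : Ideal (HR k f) where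
  carrier := {z | U ^ n ∣ z.re + z.im * W}
  zero_mem' := by simp
  add_mem' := by
    intro a b ha hb
    simp only [Set.mem_ofPred_eq, re_add, im_add] at *
    have : a.re + b.re + (a.im + b.im) * W = (a.re + a.im * W) + (b.re + b.im * W) := by ring
    rw [this]; exact dvd_add ha hb
  smul_mem' := by
    intro c z hz
    simp only [Set.mem_ofPred_eq, smul_eq_mul, re_mul, im_mul] at *
    have : c.re * z.re + f * c.im * z.im + (c.re * z.im + c.im * z.re + 0 * c.im * z.im) * W
        = (c.re + c.im * W) * (z.re + z.im * W) - (W ^ 2 - f) * (c.im * z.im) := by ring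
    rw [this]
    exact dvd_sub (hz.mul_left _) (h.mul_right _)

lemma mem_JJ {f U W : k[X]} {n : ℕ} {h : U ^ n ∣ W ^ 2 - f} {z : HR k f} :
    z ∈ JJ f U W n h ↔ U ^ n ∣ z.re + z.im * W := Iff.rfl

lemma pow_le_JJ {f U w W : k[X]} {N : ℕ} (hw : U ∣ W - w) (hW : U ^ N ∣ W ^ 2 - f) :
    ∀ n (hn : n ≤ N), II f U w ^ n ≤ JJ f U W n ((pow_dvd_pow U hn).trans hW) := by
  intro n
  induction n with
  | zero => intro hn z _; rw [mem_JJ]; simp
  | succ n ih =>
    intro hn
    rw [pow_succ]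
    refine Ideal.mul_le.2 fun x hx y hy => ?_
    have h1 : U ^ n ∣ x.re + x.im * W := ih (by omega) hx
    have h2 : U ∣ y.re + y.im * W := by
      have hU1 : U ^ 1 ∣ W ^ 2 - f := (pow_dvd_pow U (by omega)).trans hW
      have hle : II f U w ≤ JJ f U W 1 hU1 := by
        refine Ideal.span_le.2 ?_
        rintro z (rfl | rfl)
        · change U ^ 1 ∣ U + 0 * W
          simp
        · change U ^ 1 ∣ -w + 1 * W
          have : -w + 1 * W = W - w := by ring
          rw [this, pow_one]; exact hw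
      have := hle hy
      rw [mem_JJ, pow_one] at this
      exact this
    rw [mem_JJ]
    have e : (x * y).re + (x * y).im * W
        = (x.re + x.im * W) * (y.re + y.im * W) - (W ^ 2 - f) * (x.im * y.im) := by
      simp only [re_mul, im_mul]; ring
    rw [e]
    refine dvd_sub ?_ (((pow_dvd_pow U hn).trans hW).mul_right _)
    rw [pow_succ]
    exact mul_dvd_mul h1 h2

/-- the conjugate ideal times the ideal is `(U)` -/
lemma mul_conj (h20 : (2 : k) ≠ 0) {f U w : k[X]} (hU : U ∣ w ^ 2 - f) (hc : IsCoprime U w) :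
    II f U w * Ideal.map (starRingEnd (HR k f)) (II f U w)
      = Ideal.span {(⟨U, 0⟩ : HR k f)} := by
  have hmap : Ideal.map (starRingEnd (HR k f)) (II f U w)
      = Ideal.span {(⟨U, 0⟩ : HR k f), (⟨-w, -1⟩ : HR k f)} := by
    unfold II
    rw [Ideal.map_span, Set.image_pair]
    congr 2
    · ext <;> simp [starRingEnd_apply]
    · ext <;> simp [starRingEnd_apply]
  rw [hmap]
  apply le_antisymm
  · unfold II
    rw [Ideal.span_mul_span']
    refine Ideal.span_le.2 ?_
    rintro z ⟨x, hx, y, hy, rfl⟩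
    rw [SetLike.mem_coe, Ideal.mem_span_singleton]
    obtain ⟨r, hr⟩ := hU
    have hr' : w ^ 2 = f + U * r := by linear_combination hr
    rcases hx with rfl | rfl <;> rcases hy with rfl | rfl
    · exact ⟨⟨U, 0⟩, rfl⟩
    · exact ⟨⟨-w, -1⟩, rfl⟩
    · exact ⟨⟨-w, 1⟩, by simp [mul_comm]⟩
    · refine ⟨⟨r, 0⟩, ?_⟩
      ext1
      · simp only [re_mul]
        linear_combination hr'
      · simp only [im_mul]
        ring
  · rw [Ideal.span_singleton_le_iff_mem]
    obtain ⟨p, q, hpq⟩ := hc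
    have hI1 : (⟨U, 0⟩ : HR k f) ∈ II f U w := Ideal.subset_span (by simp)
    have hI2 : (⟨-w, 1⟩ : HR k f) ∈ II f U w := Ideal.subset_span (by simp)
    have hJ1 : (⟨U, 0⟩ : HR k f) ∈ Ideal.span {(⟨U, 0⟩ : HR k f), (⟨-w, -1⟩ : HR k f)} :=
      Ideal.subset_span (by simp)
    have hJ2 : (⟨-w, -1⟩ : HR k f) ∈ Ideal.span {(⟨U, 0⟩ : HR k f), (⟨-w, -1⟩ : HR k f)} :=
      Ideal.subset_span (by simp)
    have e : (⟨U, 0⟩ : HR k f) = ⟨p, 0⟩ * (⟨U, 0⟩ * ⟨U, 0⟩)
        + ⟨-(Polynomial.C (1 / 2) * q), 0⟩ * (⟨U, 0⟩ * ⟨-w, -1⟩ + ⟨-w, 1⟩ * ⟨U, 0⟩) := by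
      have h2 : (Polynomial.C (1 / 2) * 2 : k[X]) = 1 := by
        rw [← map_ofNat (Polynomial.C : k →+* k[X]) 2, ← Polynomial.C_mul]
        have : (1 / 2 : k) * OfNat.ofNat 2 = 1 := by
          change (1 / 2 : k) * 2 = 1
          field_simp
        rw [this]; simp
      ext1
      · simp only [re_mul, re_add, im_mul, im_add]
        linear_combination (-U) * hpq - (q * w * U) * h2
      · simp only [re_mul, re_add, im_mul, im_add]
        ring
    have hfin := Ideal.add_mem _ (Ideal.mul_mem_left _ (⟨p, 0⟩ : HR k f) (Ideal.mul_mem_mul hI1 hJ1))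
      (Ideal.mul_mem_left _ (⟨-(Polynomial.C (1 / 2) * q), 0⟩ : HR k f)
      (Ideal.add_mem _ (Ideal.mul_mem_mul hI1 hJ2) (Ideal.mul_mem_mul hI2 hJ1)))
    rw [← e] at hfin
    exact hfin

theorem idl : Pool.Agent.H13.HP.T_IDL.{u} := by
  intro k _ f U w N h20 hU0 hN hU hc hP
  obtain ⟨W, hWw, hWf⟩ := lift h20 hU hc N hN
  obtain ⟨h, hh⟩ := hP
  rw [← Ideal.span] at hh
  have hmem : U ^ N ∣ h.re + h.im * W := by
    have : h ∈ II f U w ^ N := by rw [hh]; exact Ideal.mem_span_singleton_self h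
    exact pow_le_JJ hWw hWf N le_rfl this
  have hspan : Ideal.span {algebraMap k[X] (HR k f) (U ^ N)}
      = Ideal.span {algebraMap k[X] (HR k f) (norm h)} := by
    have h1 : (II f U w * Ideal.map (starRingEnd (HR k f)) (II f U w)) ^ N
        = Ideal.span {h} * Ideal.span {star h} := by
      rw [mul_pow, hh, ← Ideal.map_pow, hh, Ideal.map_span, Set.image_singleton,
        starRingEnd_apply]
    rw [mul_conj h20 hU hc, Ideal.span_singleton_pow, Ideal.span_singleton_mul_span_singleton,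
      ← algebraMap_norm_eq_mul_star] at h1
    rw [← h1, map_pow]
    rfl
  have hd1 : U ^ N ∣ norm h := by
    have : algebraMap k[X] (HR k f) (norm h) ∈ Ideal.span {algebraMap k[X] (HR k f) (U ^ N)} := by
      rw [hspan]; exact Ideal.mem_span_singleton_self _
    rw [Ideal.mem_span_singleton] at this
    exact algebraMap_dvd_iff_dvd.1 this
  have hd2 : norm h ∣ U ^ N := by
    have : algebraMap k[X] (HR k f) (U ^ N) ∈ Ideal.span {algebraMap k[X] (HR k f) (norm h)} := by
      rw [← hspan]; exact Ideal.mem_span_singleton_self _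
    rw [Ideal.mem_span_singleton] at this
    exact algebraMap_dvd_iff_dvd.1 this
  obtain ⟨v, hv⟩ := associated_of_dvd_dvd hd1 hd2
  obtain ⟨c, hc0, hcv⟩ := Polynomial.isUnit_iff.1 v.isUnit
  refine ⟨W, h.re, h.im, c, hc0.ne_zero, hWw, hWf, hmem, ?_⟩
  have : norm h = h.re ^ 2 - f * h.im ^ 2 := by rw [norm_def]; ring
  rw [← this, ← hv, ← hcv, mul_comm]

/-- LIFT -/
theorem lift_T : Pool.Agent.H13.HP.T_LIFT.{u} := by
  intro k _ f U w N h20 hN hU hc
  exact lift h20 hU hc N hN

end Pool.Agent.H19.HP.IDL
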