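import Mathlib
import Pool.Agent.H13.HP.Defs

/-!
# Module REL of MP_6b5a9a_nt (positive characteristic): the logarithmic derivative of `a + b y`
-/

open Polynomial

namespace Pool.Agent.H19.HP.REL

universe u

lemma isCoprime_unit {R : Type u} [CommRing R] {x y : R} (h : IsUnit y) : IsCoprime x y := by
  obtain ⟨v, rfl⟩ := h
  exact ⟨0, ↑v⁻¹, by simp⟩

theorem rel : Pool.Agent.H13.HP.T_REL.{u} := by
  intro p _ k _ _ j f U W a b c hp2 hj hU hc hUW hWf hN hm
  obtain ⟨r, hr⟩ := hWf
  obtain ⟨m, hm⟩ := hm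
  have hU0 : U ≠ 0 := by
    rintro rfl
    simp at hU
  have hp : p.Prime := Fact.out
  have hn : 1 ≤ p * j := Nat.mul_pos hp.pos hj
  have hUn : U ^ (p * j) ≠ 0 := pow_ne_zero _ hU0
  have hCc : IsUnit (C c : k[X]) := isUnit_C.2 (isUnit_iff_ne_zero.2 hc)
  have hUd : U ∣ U ^ (p * j) := dvd_pow_self U (by omega)
  -- coprimality of `a` and `b`
  have e1 : m * (a - b * W) = C c - b ^ 2 * r := by
    apply mul_left_cancel₀ hUn
    linear_combination (-(a - b * W)) * hm + hN - b ^ 2 * hr
  have hab : IsCoprime a b := by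
    obtain ⟨v, hv⟩ := hCc
    refine ⟨↑v⁻¹ * m, - (↑v⁻¹ * (m * W - b * r)), ?_⟩
    have h1 : (↑v⁻¹ : k[X]) * C c = 1 := by rw [← hv]; exact v.inv_mul
    linear_combination (↑v⁻¹ : k[X]) * e1 + h1
  have hb : b ≠ 0 := by
    rintro rfl
    have h1 : IsUnit a := isCoprime_zero_right.1 hab
    have h2 : IsUnit (C c * U ^ (p * j)) := by
      rw [← hN]
      simpa using h1
    have h3 : IsUnit U := by
      have := (IsUnit.mul_iff.1 h2).2
      exact (isUnit_pow_iff (by omega)).1 this
    have h4 := natDegree_eq_zero_of_isUnit h3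
    omega
  have hUf : IsCoprime U f := by
    obtain ⟨s, hs⟩ := hUd
    have : f = W ^ 2 + U * (- (s * r)) := by
      linear_combination (-hr) - r * hs
    rw [this]
    exact (IsCoprime.add_mul_left_right_iff).2 (hUW.pow_right)
  have hfa : IsCoprime f a := by
    have h1 : IsCoprime f (a ^ 2 - f * b ^ 2) := by
      rw [hN]
      exact IsCoprime.mul_right (isCoprime_unit hCc) (hUf.symm.pow_right)
    have h2 : IsCoprime f (a ^ 2) := by
      have : a ^ 2 = (a ^ 2 - f * b ^ 2) + f * b ^ 2 := by ring
      rw [this]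
      exact (IsCoprime.add_mul_left_right_iff).2 h1
    exact (IsCoprime.pow_right_iff (by norm_num)).1 h2
  have hUa : IsCoprime U a := by
    have h1 : IsCoprime a (f * b ^ 2) := IsCoprime.mul_right hfa.symm hab.pow_right
    have h2 : IsCoprime a (C c * U ^ (p * j)) := by
      rw [← hN]
      have : a ^ 2 - f * b ^ 2 = - (f * b ^ 2) + a * a := by ring
      rw [this]
      exact (IsCoprime.add_mul_left_right_iff).2 h1.neg_right
    have h3 : IsCoprime a (U ^ (p * j)) := h2.of_mul_right_right
    exact ((IsCoprime.pow_right_iff (by omega)).1 h3).symm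
  refine ⟨hb, hab, hUa, ?_⟩
  have hd : derivative (a ^ 2 - f * b ^ 2) = 0 := by
    rw [hN, derivative_mul, derivative_C, zero_mul, zero_add, derivative_pow]
    have : ((p * j : ℕ) : k) = 0 := by
      push_cast
      rw [CharP.cast_eq_zero, zero_mul]
    rw [this]
    simp
  have hd2 : a * (2 * derivative a) = b * (derivative f * b + 2 * f * derivative b) := by
    have : derivative (a ^ 2 - f * b ^ 2)
        = a * (2 * derivative a) - b * (derivative f * b + 2 * f * derivative b) := by
      simp only [derivative_sub, derivative_mul, sq]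
      ring
    rw [this] at hd
    linear_combination hd
  have hbd : b ∣ 2 * derivative a := by
    have : b ∣ a * (2 * derivative a) := ⟨_, hd2⟩
    exact hab.symm.dvd_of_dvd_mul_left this
  obtain ⟨w, hw⟩ := hbd
  refine ⟨w, by rw [hw, mul_comm], ?_⟩
  apply mul_left_cancel₀ hb
  rw [← hd2, hw]
  ring

end Pool.Agent.H19.HP.REL
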