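import Mathlib
import Pool.Agent.H13.HP.Defs

/-!
# Module SML of MP_6b5a9a_nt (positive characteristic): the coefficients of `w` are small
-/

open Polynomial

namespace Pool.Agent.H19.HP.SML

universe u

variable {k : Type u} [Field k] {Γ₀ : Type u} [LinearOrderedCommGroupWithZero Γ₀]
  (v : Valuation k Γ₀)

lemma nat_le (n : ℕ) : v (n : k) ≤ 1 := by
  induction n with
  | zero => simp
  | succ n ih =>
    push_cast
    exact v.map_add_le ih (by simp)

lemma mul_lt {x y : k} {γ : Γ₀} (hx : v x ≤ 1) (hy : v y < γ) : v (x * y) < γ := by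
  rw [map_mul]
  exact (mul_le_of_le_one_left' hx).trans_lt hy

theorem sml : Pool.Agent.H13.HP.T_SML.{u} := by
  intro k _ Γ₀ _ v f a b w μ hf hμ hμ1 ha0 ha hb hw
  have hva : 0 < v (a.coeff 0) := zero_lt_iff.2 ((Valuation.ne_zero_iff v).2 ha0)
  have hvμ : 0 < v μ := zero_lt_iff.2 ((Valuation.ne_zero_iff v).2 hμ)
  have hγ : 0 < v (a.coeff 0) * v μ := mul_pos hva hvμ
  have hfd : ∀ i, v ((derivative f).coeff i) ≤ 1 := by
    intro i
    rw [coeff_derivative, map_mul]
    refine mul_le_one' (hf _) ?_
    have := nat_le v (i + 1)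
    push_cast at this
    exact this
  have hbd : ∀ i, v ((derivative b).coeff i) < v (a.coeff 0) * v μ := by
    intro i
    rw [coeff_derivative, mul_comm]
    refine mul_lt v ?_ (hb _)
    have := nat_le v (i + 1)
    push_cast at this
    exact this
  have hr : ∀ i, v ((a * w).coeff i) < v (a.coeff 0) * v μ := by
    intro i
    rw [hw, coeff_add]
    refine v.map_add_lt ?_ ?_
    · rw [coeff_mul]
      exact v.map_sum_lt hγ.ne' (fun x _ => mul_lt v (hfd _) (hb _))
    · rw [mul_assoc, ← map_ofNat (Polynomial.C : k →+* k[X]) 2, coeff_C_mul]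
      refine mul_lt v ?_ ?_
      · have := nat_le v 2
        exact_mod_cast this
      · rw [coeff_mul]
        exact v.map_sum_lt hγ.ne' (fun x _ => mul_lt v (hf _) (hbd _))
  intro i
  induction i using Nat.strong_induction_on with
  | _ i ih =>
    have h1 : (a * w).coeff i = a.coeff 0 * w.coeff i
        + ∑ x ∈ (Finset.HasAntidiagonal.antidiagonal i).erase (0, i), a.coeff x.1 * w.coeff x.2 := by
      rw [coeff_mul, ← Finset.add_sum_erase _ _ (a := ((0, i) : ℕ × ℕ))]
      simp
    have h2 : v (∑ x ∈ (Finset.HasAntidiagonal.antidiagonal i).erase (0, i), a.coeff x.1 * w.coeff x.2)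
        < v (a.coeff 0) * v μ := by
      refine v.map_sum_lt hγ.ne' fun x hx => ?_
      rw [Finset.mem_erase, Finset.HasAntidiagonal.mem_antidiagonal] at hx
      obtain ⟨hx1, hx2⟩ := hx
      have hx3 : x.1 ≠ 0 := by
        intro h
        apply hx1
        ext
        · exact h
        · simp; omega
      rw [map_mul]
      calc v (a.coeff x.1) * v (w.coeff x.2) ≤ v (a.coeff 0) * v (w.coeff x.2) :=
            mul_le_mul_left (ha _ (by omega)) _
        _ < v (a.coeff 0) * v μ := (mul_lt_mul_iff_right₀ hva).2 (ih _ (by omega))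
    have h3 : a.coeff 0 * w.coeff i = (a * w).coeff i
        - ∑ x ∈ (Finset.HasAntidiagonal.antidiagonal i).erase (0, i), a.coeff x.1 * w.coeff x.2 := by
      rw [h1]; ring
    have h4 : v (a.coeff 0 * w.coeff i) < v (a.coeff 0) * v μ := by
      rw [h3]
      exact (v.map_sub _ _).trans_lt (max_lt (hr i) h2)
    rw [map_mul] at h4
    exact (mul_lt_mul_iff_right₀ hva).1 h4

end Pool.Agent.H19.HP.SML
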